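import Mathlib
import Pool.Agent.Helper40.NotNoeth
import Pool.Agent.Helper40.FieldIndep

/-!
# A basic ring which is not F-noetherian

Let `K = ℂ(t_i : i ∈ ℤ)` and let `α : K → K` be the endomorphism over `ℂ` with
`α(t_i) = t_{i-1} ^ N_i`, where `N_i = 2 ^ (2 i - 1)` for `i ≥ 1` and `N_i = 1` for `i ≤ 0`.
The ring is `R = K ⊕ K x` with `x² = 0` and `x a = α(a) x`.

* `R` is left artinian, hence left noetherian.
* `K` is algebraic over `α(K)`; this implies that every epimorphism from a submodule of a finitely
  generated right module `M` onto `M` is an isomorphism.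
* The degree of `t_0` over `α^n(K)` is `2 ^ (n ^ 2)`. If a right noetherian subring of `R`
  contained `x` and `t_0`, then this degree would be at most `d ^ n` for some `d` and all `n`.
-/

set_option autoImplicit false

open Function MulOpposite

universe u

namespace Pool.Agent.Results.MP_42b5d3_al.BasicNotFNoetherian

/-- The one-sided (left) version of the basic condition: whenever `M` is a finitely generated left
`R`-module and some left `R`-module `A` admits both an epimorphism `f : A → M` and a monomorphism
`i : A → M`, the map `f` is an isomorphism. (Every finitely generated `R`-module, and every module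
that embeds in one, is isomorphic to a module in the universe of `R`.) -/
def IsLeftBasic (R : Type u) [Ring R] : Prop :=
  ∀ (M A : Type u) [AddCommGroup M] [Module R M] [AddCommGroup A] [Module R A],
    Module.Finite R M → ∀ f i : A →ₗ[R] M, Surjective f → Injective i → Bijective f

/-- A ring `R` is basic if the basic condition holds for left `R`-modules and for right
`R`-modules, that is, left modules over the opposite ring. -/
def IsBasic (R : Type u) [Ring R] : Prop :=
  IsLeftBasic R ∧ IsLeftBasic Rᵐᵒᵖ

/-- A ring `R` is F-noetherian if each finite subset of `R` lies in some subring which is left and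
right noetherian. -/
def IsFNoetherian (R : Type u) [Ring R] : Prop :=
  ∀ s : Finset R, ∃ S : Subring R, (∀ a ∈ s, a ∈ S) ∧ IsNoetherianRing S ∧ IsNoetherianRing Sᵐᵒᵖ

open Pool.Agent.Helper40.Basic

/-- **Positive answer to Q1.** There is a basic ring that is not F-noetherian. -/
theorem result : ∃ (R : Type) (_ : Ring R), IsBasic R ∧ ¬ IsFNoetherian R := by
  classical
  refine ⟨TwR Fld.αr, inferInstance, ⟨?_, ?_⟩, ?_⟩
  · intro M A _ _ _ _ hM f i hf hi
    exact ⟨OrzechProperty.injective_of_surjective_of_injective i f hi hf, hf⟩
  · intro M A _ _ _ _ hM f i hf hi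
    refine ⟨?_, hf⟩
    let e := LinearEquiv.ofInjective i hi
    have h := TwR.orzech_op (α := Fld.αr) Fld.α_integral (LinearMap.range i)
      (f.comp e.symm.toLinearMap) (hf.comp e.symm.surjective)
    intro a b hab
    have h1 := @h (e a) (e b) (by simpa using hab)
    exact e.injective h1
  · intro h
    obtain ⟨S, hS, -, hN⟩ := h {TwR.X, TwR.inl (Fld.t 0)}
    refine TwR.not_noeth (α := Fld.αr) (Fld.t 0) (fun n => 2 ^ (n ^ 2)) ?_ Fld.lin_indep S
      (hS _ (by simp)) (hS _ (by simp)) hN
    intro d
    refine ⟨d + 1, ?_⟩
    have h1 : d < 2 ^ (d + 1) := lt_trans (Nat.lt_two_pow_self) (Nat.pow_lt_pow_right (by norm_num) (Nat.lt_succ_self d))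
    calc d ^ (d + 1) < (2 ^ (d + 1)) ^ (d + 1) := Nat.pow_lt_pow_left h1 (by omega)
      _ = 2 ^ ((d + 1) ^ 2) := by rw [← pow_mul]; ring_nf

end Pool.Agent.Results.MP_42b5d3_al.BasicNotFNoetherian
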